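import Pool.Agent.Helper6.H.Defs

namespace Pool.Agent.Helper68.H

open Finset Equiv Pool.Agent.Helper90.W2 Pool.Agent.Helper6.H

variable {n k : ℕ}

lemma flip_flip' (s : Fin k × Bool) :
    Pool.Agent.Helper6.H.flip (Pool.Agent.Helper6.H.flip s) = s := by
  rcases s with ⟨a, b⟩; simp [Pool.Agent.Helper6.H.flip]

/-- equality of edges -/
lemma edge_eq (r : ℕ → Fin k × Bool) (x : Fin k → Perm (Fin n)) (p : Fin n) (t t' : ℕ)
    (h : edge r x p t = edge r x p t') :
    (r t = r t' ∧ traj r x p t = traj r x p t' ∧ traj r x p (t + 1) = traj r x p (t' + 1)) ∨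
    (r t = Pool.Agent.Helper6.H.flip (r t') ∧ traj r x p t = traj r x p (t' + 1) ∧
      traj r x p (t + 1) = traj r x p t') := by
  have h1 : traj r x p (t + 1) = act x (r t) (traj r x p t) := rfl
  have h2 : traj r x p (t' + 1) = act x (r t') (traj r x p t') := rfl
  unfold edge at h
  generalize traj r x p (t + 1) = a' at *
  generalize traj r x p (t' + 1) = b' at *
  generalize traj r x p t = a at *
  generalize traj r x p t' = b at *
  rcases hr : r t with ⟨i, c⟩
  rcases hr' : r t' with ⟨i', c'⟩
  rw [hr] at h h1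
  rw [hr'] at h h2
  simp only [Prod.mk.injEq] at h
  obtain ⟨hi, hc⟩ := h
  subst hi
  cases c <;> cases c' <;> simp [act] at hc h1 h2
  · left
    subst hc
    refine ⟨rfl, ?_, rfl⟩
    rw [h1] at h2
    exact (x i)⁻¹.injective h2
  · right
    subst hc
    refine ⟨rfl, ?_, rfl⟩
    rw [h2, h1]; simp
  · right
    subst hc
    refine ⟨rfl, rfl, ?_⟩
    rw [h1, h2]; simp
  · left
    subst hc
    exact ⟨rfl, rfl, by rw [h1, h2]⟩

/-- The combinatorial core. -/
lemma core {α σ : Type*} [DecidableEq α] (fl : σ → σ) (hfl : ∀ s, fl (fl s) = s) (r : ℕ → σ)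
    (T : ℕ → α) (L g : ℕ) (U : Finset α)
    (hr : ∀ t, t + 1 < L → r (t + 1) ≠ fl (r t))
    (f : α → ℕ) (hf : ∀ t, T (f (T t)) = T t) (hf' : ∀ t, f (T t) ≤ t)
    (step : ∀ t < L, T t ∉ U → T (t + 1) ∉ U →
      (0 < f (T (t + 1)) ∧ T t = T (f (T (t + 1)) - 1) ∧ r t = r (f (T (t + 1)) - 1)) ∨
      (0 < f (T t) ∧ T (t + 1) = T (f (T t) - 1) ∧ r t = fl (r (f (T t) - 1))))
    (hvis : 2 * (((range (L + 1)).image T).filter fun z => z ∉ U).card ≤ L + 2)
    (F : Finset ℕ) (hF : ∀ t ∈ F, t + g ≤ L ∧ ∀ t' < t,
      ¬ (∀ i < g, r (t' + i) = r (t + i)) ∧ ¬ (∀ i < g, r (t' + i) = fl (r (t + g - 1 - i)))) :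
    2 * F.card ≤ L + 2 + 2 * g +
      2 * (2 * g + 1) * ((range (L + 1)).filter fun t => T t ∈ U).card := by
  classical
  -- down and up steps
  let D : ℕ → Prop := fun t =>
    0 < f (T (t + 1)) ∧ T t = T (f (T (t + 1)) - 1) ∧ r t = r (f (T (t + 1)) - 1)
  let Up : ℕ → Prop := fun t =>
    0 < f (T t) ∧ T (t + 1) = T (f (T t) - 1) ∧ r t = fl (r (f (T t) - 1))
  have hDlt : ∀ t, D t → f (T t) < f (T (t + 1)) := by
    rintro t ⟨h0, h1, -⟩
    have := hf' (f (T (t + 1)) - 1)
    rw [← h1] at this
    omega
  have hUlt : ∀ t, Up t → f (T (t + 1)) < f (T t) := by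
    rintro t ⟨h0, h1, -⟩
    have := hf' (f (T t) - 1)
    rw [← h1] at this
    omega
  have hDU : ∀ t, D t → ¬ Up t := by
    intro t hD hU
    have h1 := hDlt t hD
    have h2 := hUlt t hU
    omega
  have hDnext : ∀ t, t + 1 < L → D t → ¬ Up (t + 1) := by
    rintro t ht ⟨-, -, h3⟩ ⟨-, -, h6⟩
    apply hr t ht
    rw [h6, h3]
  set UT := (range (L + 1)).filter fun t => T t ∈ U with hUT
  -- down propagates
  have hprop : ∀ s, D s → ∀ m, s + m < L → (∀ i ≤ m + 1, T (s + i) ∉ U) → D (s + m) := by
    intro s hs m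
    induction m with
    | zero => intro _ _; simpa using hs
    | succ m ih =>
      intro hL hU
      have h1 := ih (by omega) (fun i hi => hU i (by omega))
      have h2 := hDnext (s + m) (by omega) h1
      rcases step (s + (m + 1)) (by omega) (hU (m + 1) (by omega))
        (by have := hU (m + 2) (by omega); exact this) with h | h
      · exact h
      · exact absurd h h2
  -- turns
  let TT := (range (L + 1)).filter fun s =>
    s + 2 ≤ L ∧ T s ∉ U ∧ T (s + 1) ∉ U ∧ T (s + 2) ∉ U ∧ Up s ∧ D (s + 1)
  have hTT : TT.card ≤ UT.card + 1 := by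
    have hmaps : ∀ s ∈ TT, (UT.filter fun t => t < s).card ∈ range (UT.card + 1) := by
      intro s _
      rw [Finset.mem_range]
      have := Finset.card_filter_le UT (fun t => t < s)
      omega
    have hlt : ∀ s₁ ∈ TT, ∀ s₂ ∈ TT, s₁ < s₂ →
        (UT.filter fun t => t < s₁).card < (UT.filter fun t => t < s₂).card := by
      intro s₁ h1 s₂ h2 h12
      simp only [TT, Finset.mem_filter, Finset.mem_range] at h1 h2
      obtain ⟨-, hL1, ha1, hb1, hc1, hU1, hD1⟩ := h1
      obtain ⟨-, hL2, ha2, hb2, hc2, hU2, hD2⟩ := h2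
      have hne : s₂ ≠ s₁ + 1 := by
        intro h; subst h
        exact hDU _ hD1 hU2
      obtain ⟨m, rfl⟩ : ∃ m, s₂ = s₁ + 1 + m := ⟨s₂ - (s₁ + 1), by omega⟩
      have hex : ∃ i ≤ m + 1, T (s₁ + 1 + i) ∈ U := by
        by_contra hcon
        push Not at hcon
        exact hDU _ (hprop (s₁ + 1) hD1 m (by omega) hcon) hU2
      obtain ⟨i, hi, hiU⟩ := hex
      have him : i < m := by
        rcases Nat.lt_trichotomy i m with h | h | h
        · exact h
        · subst h; exact absurd hiU ha2
        · have : i = m + 1 := by omega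
          subst this
          exact absurd hiU hb2
      apply Finset.card_lt_card
      rw [Finset.ssubset_iff_of_subset]
      · refine ⟨s₁ + 1 + i, ?_, ?_⟩
        · rw [Finset.mem_filter, hUT, Finset.mem_filter, Finset.mem_range]
          exact ⟨⟨by omega, hiU⟩, by omega⟩
        · rw [Finset.mem_filter]
          rintro ⟨-, h⟩
          omega
      · intro t ht
        rw [Finset.mem_filter] at ht ⊢
        exact ⟨ht.1, by omega⟩
    have := Finset.card_le_card_of_injOn (fun s => (UT.filter fun t => t < s).card)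
      (s := TT) (t := range (UT.card + 1)) (fun s hs => by simpa using hmaps s hs) (by
        intro s₁ h1 s₂ h2 h
        by_contra hne
        rcases Nat.lt_or_gt_of_ne hne with h' | h'
        · have := hlt s₁ h1 s₂ h2 h'
          simp only at h
          omega
        · have := hlt s₂ h2 s₁ h1 h'
          simp only at h
          omega)
    simpa using this
  -- three classes of windows
  let A := F.filter fun t => ∃ i ≤ g, T (t + i) ∈ U
  let B := F.filter fun t => ∃ s ∈ TT, t ≤ s ∧ s + 2 ≤ t + g
  let C := F.filter fun t => (∀ i ≤ g, T (t + i) ∉ U) ∧ ¬ ∃ s ∈ TT, t ≤ s ∧ s + 2 ≤ t + g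
  have hcover : F ⊆ A ∪ B ∪ C := by
    intro t ht
    simp only [A, B, C, Finset.mem_union, Finset.mem_filter]
    by_cases h1 : ∃ i ≤ g, T (t + i) ∈ U
    · left; left; exact ⟨ht, h1⟩
    · by_cases h2 : ∃ s ∈ TT, t ≤ s ∧ s + 2 ≤ t + g
      · left; right; exact ⟨ht, h2⟩
      · right
        push Not at h1
        exact ⟨ht, h1, h2⟩
  have hA : A.card ≤ (g + 1) * UT.card := by
    have hsub : A ⊆ UT.biUnion fun s => Finset.Icc (s - g) s := by
      intro t ht
      simp only [A, Finset.mem_filter] at ht
      obtain ⟨htF, i, hi, hiU⟩ := ht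
      have := (hF t htF).1
      rw [Finset.mem_biUnion]
      refine ⟨t + i, ?_, ?_⟩
      · rw [hUT, Finset.mem_filter, Finset.mem_range]
        exact ⟨by omega, hiU⟩
      · rw [Finset.mem_Icc]; omega
    refine (Finset.card_le_card hsub).trans ?_
    refine (Finset.card_biUnion_le_card_mul _ _ (g + 1) ?_).trans (le_of_eq (mul_comm _ _))
    intro s _
    rw [Nat.card_Icc]; omega
  have hB : B.card ≤ g * (UT.card + 1) := by
    have hsub : B ⊆ TT.biUnion fun s => Finset.Icc (s + 1 - g) s := by
      intro t ht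
      simp only [B, Finset.mem_filter] at ht
      obtain ⟨htF, s, hs, h1, h2⟩ := ht
      rw [Finset.mem_biUnion]
      refine ⟨s, hs, ?_⟩
      rw [Finset.mem_Icc]; omega
    refine (Finset.card_le_card hsub).trans ?_
    refine (Finset.card_biUnion_le_card_mul _ _ g ?_).trans ?_
    · intro s _
      rw [Nat.card_Icc]; omega
    · rw [mul_comm]
      exact Nat.mul_le_mul_left _ hTT
  -- bottoms
  let par : α → α := fun z => T (f z - 1)
  let lab : α → σ := fun z => r (f z - 1)
  have hparD : ∀ t, D t → T t = par (T (t + 1)) ∧ r t = lab (T (t + 1)) := fun t h => h.2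
  have hparU : ∀ t, Up t → T (t + 1) = par (T t) ∧ r t = fl (lab (T t)) := fun t h => h.2
  have hC1 : ∀ t ∈ C, ∃ b ∈ ((range (L + 1)).image T).filter fun z => z ∉ U,
      (∀ i < g, r (t + i) = lab (par^[g - 1 - i] b)) ∨
      (∀ i < g, r (t + i) = fl (lab (par^[i] b))) := by
    intro t ht
    simp only [C, Finset.mem_filter] at ht
    obtain ⟨htF, hU, hnt⟩ := ht
    have htL := (hF t htF).1
    have hst : ∀ i < g, D (t + i) ∨ Up (t + i) := by
      intro i hi
      exact step (t + i) (by omega) (hU i (by omega)) (hU (i + 1) (by omega))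
    have hnoturn : ∀ i, i + 1 < g → Up (t + i) → Up (t + (i + 1)) := by
      intro i hi hup
      rcases hst (i + 1) hi with h | h
      · exfalso
        apply hnt
        refine ⟨t + i, ?_, by omega, by omega⟩
        simp only [TT, Finset.mem_filter, Finset.mem_range]
        exact ⟨by omega, by omega, hU i (by omega), hU (i + 1) (by omega), hU (i + 2) (by omega),
          hup, h⟩
      · exact h
    rcases Nat.eq_zero_or_pos g with hg | hg
    · refine ⟨T t, ?_, Or.inl ?_⟩
      · rw [Finset.mem_filter, Finset.mem_image]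
        exact ⟨⟨t, by rw [Finset.mem_range]; omega, rfl⟩, by simpa using hU 0 (by omega)⟩
      · intro i hi; omega
    rcases hst 0 hg with h0 | h0
    · -- all down
      have hall : ∀ i < g, D (t + i) := by
        intro i hi
        exact hprop t (by simpa using h0) i (by omega) (fun j hj => hU j (by omega))
      refine ⟨T (t + g), ?_, Or.inl ?_⟩
      · rw [Finset.mem_filter, Finset.mem_image]
        exact ⟨⟨t + g, by rw [Finset.mem_range]; omega, rfl⟩, hU g le_rfl⟩
      · have hiter : ∀ i ≤ g, par^[i] (T (t + g)) = T (t + (g - i)) := by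
          intro i
          induction i with
          | zero => intro _; simp
          | succ i ih =>
            intro hi
            rw [Function.iterate_succ_apply', ih (by omega)]
            have := (hparD (t + (g - (i + 1))) (hall (g - (i + 1)) (by omega))).1
            rw [show t + (g - (i + 1)) + 1 = t + (g - i) by omega] at this
            exact this.symm
        intro i hi
        rw [hiter (g - 1 - i) (by omega)]
        have := (hparD (t + i) (hall i hi)).2
        rw [show t + i + 1 = t + (g - (g - 1 - i)) by omega] at this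
        exact this
    · -- all up
      have hall : ∀ i < g, Up (t + i) := by
        intro i
        induction i with
        | zero => intro _; simpa using h0
        | succ i ih => intro hi; exact hnoturn i hi (ih (by omega))
      refine ⟨T t, ?_, Or.inr ?_⟩
      · rw [Finset.mem_filter, Finset.mem_image]
        exact ⟨⟨t, by rw [Finset.mem_range]; omega, rfl⟩, by simpa using hU 0 (by omega)⟩
      · have hiter : ∀ i ≤ g, par^[i] (T t) = T (t + i) := by
          intro i
          induction i with
          | zero => intro _; simp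
          | succ i ih =>
            intro hi
            rw [Function.iterate_succ_apply', ih (by omega)]
            exact (hparU (t + i) (hall i (by omega))).1.symm
        intro i hi
        rw [hiter i (by omega)]
        exact (hparU (t + i) (hall i hi)).2
  have : Nonempty α := ⟨T 0⟩
  choose! bot hbot1 hbot2 using hC1
  have hC : C.card ≤ (((range (L + 1)).image T).filter fun z => z ∉ U).card := by
    have key : ∀ t₁ ∈ C, ∀ t₂ ∈ C, t₁ < t₂ → bot t₁ ≠ bot t₂ := by
      intro t₁ h1 t₂ h2 h12 heq
      have hF2 := (hF t₂ (Finset.mem_of_mem_filter _ h2)).2 t₁ h12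
      rcases hbot2 t₁ h1 with e1 | e1 <;> rcases hbot2 t₂ h2 with e2 | e2
      · apply hF2.1
        intro i hi
        rw [e1 i hi, e2 i hi, heq]
      · apply hF2.2
        intro i hi
        rw [e1 i hi, heq, show t₂ + g - 1 - i = t₂ + (g - 1 - i) by omega,
          e2 (g - 1 - i) (by omega), hfl]
      · apply hF2.2
        intro i hi
        rw [e1 i hi, heq, show t₂ + g - 1 - i = t₂ + (g - 1 - i) by omega,
          e2 (g - 1 - i) (by omega), show g - 1 - (g - 1 - i) = i by omega]
      · apply hF2.1
        intro i hi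
        rw [e1 i hi, e2 i hi, heq]
    apply Finset.card_le_card_of_injOn bot (fun t ht => hbot1 t ht)
    intro t₁ h1 t₂ h2 h
    by_contra hne
    rcases Nat.lt_or_gt_of_ne hne with h' | h'
    · exact key t₁ h1 t₂ h2 h' h
    · exact key t₂ h2 t₁ h1 h' h.symm
  have hsum : F.card ≤ A.card + B.card + C.card :=
    (Finset.card_le_card hcover).trans ((Finset.card_union_le _ _).trans
      (Nat.add_le_add_right (Finset.card_union_le _ _) _))
  calc 2 * F.card ≤ 2 * (A.card + B.card + C.card) := by omega
    _ ≤ 2 * ((g + 1) * UT.card) + 2 * (g * (UT.card + 1)) + (L + 2) := by omega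
    _ = L + 2 + 2 * g + 2 * (2 * g + 1) * UT.card := by ring

theorem structure_lemma {n k : ℕ} (r : ℕ → Fin k × Bool) (x : Fin k → Perm (Fin n)) (p : Fin n)
    (L g : ℕ) (U : Finset (Fin n)) (OE : Set (Fin k × Fin n))
    (hr : ∀ t, t + 1 < L → r (t + 1) ≠ Pool.Agent.Helper6.H.flip (r t))
    (hOE : ∀ t < L, edge r x p t ∈ OE → traj r x p t ∈ U ∧ traj r x p (t + 1) ∈ U)
    (ha : ∀ t₀ < L, edge r x p t₀ ∉ OE → (∀ t < t₀, edge r x p t ≠ edge r x p t₀) →
      ∀ t ≤ t₀, traj r x p t ≠ traj r x p (t₀ + 1))
    (hb : ∀ t₀ < L, edge r x p t₀ ∉ OE → ∃ t < L, t ≠ t₀ ∧ edge r x p t = edge r x p t₀) :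
    2 * (firstPos r g L).card ≤ L + 2 + 2 * g +
      2 * (2 * g + 1) * ((range (L + 1)).filter fun t => traj r x p t ∈ U).card := by
  classical
  let T : ℕ → Fin n := traj r x p
  let f : Fin n → ℕ := fun z => sInf {t | T t = z}
  have hf : ∀ t, T (f (T t)) = T t := fun t => Nat.sInf_mem (s := {t' | T t' = T t}) ⟨t, rfl⟩
  have hf' : ∀ t, f (T t) ≤ t := fun t => Nat.sInf_le (s := {t' | T t' = T t}) rfl
  have hfeq : ∀ t₁, (∀ t ≤ t₁, T t ≠ T (t₁ + 1)) → f (T (t₁ + 1)) = t₁ + 1 := by
    intro t₁ h
    have h1 := hf' (t₁ + 1)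
    have h2 := hf (t₁ + 1)
    by_contra hne
    exact h _ (by omega) h2
  -- classification of the steps
  have step : ∀ t < L, T t ∉ U → T (t + 1) ∉ U →
      (0 < f (T (t + 1)) ∧ T t = T (f (T (t + 1)) - 1) ∧ r t = r (f (T (t + 1)) - 1)) ∨
      (0 < f (T t) ∧ T (t + 1) = T (f (T t) - 1) ∧
        r t = Pool.Agent.Helper6.H.flip (r (f (T t) - 1))) := by
    intro t ht h1 h2
    have hne : ∃ t₁, edge r x p t₁ = edge r x p t := ⟨t, rfl⟩
    obtain ⟨t₁, ht₁, hmin⟩ : ∃ t₁, edge r x p t₁ = edge r x p t ∧
        ∀ t' < t₁, ¬ edge r x p t' = edge r x p t :=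
      ⟨Nat.find hne, Nat.find_spec hne, fun t' ht' => Nat.find_min hne ht'⟩
    have hle : t₁ ≤ t := by
      by_contra h
      exact hmin t (by omega) rfl
    have hnotOE : edge r x p t₁ ∉ OE := by
      rw [ht₁]
      intro h
      exact h1 (hOE t ht h).1
    have hfirst := hfeq t₁ (ha t₁ (by omega) hnotOE (fun t' ht' h => hmin t' ht' (by rw [h, ht₁])))
    rcases edge_eq r x p t t₁ ht₁.symm with ⟨e1, e2, e3⟩ | ⟨e1, e2, e3⟩
    · left
      have e3' : T (t + 1) = T (t₁ + 1) := e3
      rw [e3', hfirst]
      exact ⟨Nat.succ_pos _, e2, e1⟩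
    · right
      have e2' : T t = T (t₁ + 1) := e2
      rw [e2', hfirst]
      exact ⟨Nat.succ_pos _, e3, e1⟩
  -- visited points
  have hvis : 2 * (((range (L + 1)).image T).filter fun z => z ∉ U).card ≤ L + 2 := by
    set V := ((range (L + 1)).image T).filter fun z => z ∉ U with hV
    set V' := V.erase (T 0) with hV'
    have hVV : V.card ≤ V'.card + 1 := by
      have := Finset.pred_card_le_card_erase (s := V) (a := T 0)
      rw [← hV'] at this
      omega
    have hmem : ∀ z ∈ V', 0 < f z ∧ f z ≤ L ∧ T (f z) = z ∧ z ∉ U ∧ ∀ t, T t = z → f z ≤ t := by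
      intro z hz
      rw [hV', Finset.mem_erase, hV, Finset.mem_filter, Finset.mem_image] at hz
      obtain ⟨hz0, ⟨t, ht, rfl⟩, hzU⟩ := hz
      rw [Finset.mem_range] at ht
      refine ⟨?_, (hf' t).trans (by omega), hf t, hzU, ?_⟩
      · rcases Nat.eq_zero_or_pos (f (T t)) with h | h
        · exfalso
          apply hz0
          rw [← hf t, h]
        · exact h
      · intro t' ht'
        rw [← ht']; exact hf' t'
    have hfib : ∀ z ∈ V',
        2 ≤ ((range L).filter fun t => edge r x p t = edge r x p (f z - 1)).card := by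
      intro z hz
      obtain ⟨h0, hL, hT, hzU, -⟩ := hmem z hz
      have hnotOE : edge r x p (f z - 1) ∉ OE := by
        intro h
        have := (hOE (f z - 1) (by omega) h).2
        rw [show f z - 1 + 1 = f z by omega] at this
        exact hzU (hT ▸ this)
      obtain ⟨t, htL, htne, hte⟩ := hb (f z - 1) (by omega) hnotOE
      have : ({t, f z - 1} : Finset ℕ) ⊆
          (range L).filter fun t => edge r x p t = edge r x p (f z - 1) := by
        intro s hs
        rw [Finset.mem_insert, Finset.mem_singleton] at hs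
        rw [Finset.mem_filter, Finset.mem_range]
        rcases hs with rfl | rfl
        · exact ⟨htL, hte⟩
        · exact ⟨by omega, rfl⟩
      have h2 := Finset.card_le_card this
      rwa [Finset.card_pair htne] at h2
    have hdisj : ∀ z ∈ V', ∀ z' ∈ V', z ≠ z' →
        Disjoint ((range L).filter fun t => edge r x p t = edge r x p (f z - 1))
          ((range L).filter fun t => edge r x p t = edge r x p (f z' - 1)) := by
      intro z hz z' hz' hne
      rw [Finset.disjoint_left]
      intro t ht ht'
      rw [Finset.mem_filter] at ht ht'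
      have he : edge r x p (f z - 1) = edge r x p (f z' - 1) := by rw [← ht.2, ht'.2]
      obtain ⟨h0, hL, hT, hzU, hmin⟩ := hmem z hz
      obtain ⟨h0', hL', hT', hzU', hmin'⟩ := hmem z' hz'
      rcases edge_eq r x p _ _ he with ⟨-, -, e3⟩ | ⟨-, e2, e3⟩
      · rw [show f z - 1 + 1 = f z by omega, show f z' - 1 + 1 = f z' by omega] at e3
        apply hne
        rw [← hT, ← hT']; exact e3
      · rw [show f z' - 1 + 1 = f z' by omega] at e2
        rw [show f z - 1 + 1 = f z by omega] at e3
        have a1 := hmin' (f z - 1) (by rw [← hT']; exact e2)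
        have a2 := hmin (f z' - 1) (by rw [← hT]; exact e3.symm)
        omega
    have hcard : V'.card * 2 ≤ L := by
      calc V'.card * 2 = ∑ _z ∈ V', 2 := by simp
        _ ≤ ∑ z ∈ V', ((range L).filter fun t => edge r x p t = edge r x p (f z - 1)).card :=
          Finset.sum_le_sum hfib
        _ = (V'.biUnion fun z =>
            (range L).filter fun t => edge r x p t = edge r x p (f z - 1)).card :=
          (Finset.card_biUnion hdisj).symm
        _ ≤ (range L).card := by
          apply Finset.card_le_card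
          intro t ht
          rw [Finset.mem_biUnion] at ht
          obtain ⟨z, -, hz⟩ := ht
          exact (Finset.mem_filter.1 hz).1
        _ = L := Finset.card_range L
    omega
  have hmain := core Pool.Agent.Helper6.H.flip flip_flip' r T L g U hr f hf hf' step hvis
    (firstPos r g L) (by
      intro t ht
      unfold firstPos at ht
      rw [Finset.mem_filter, Finset.mem_range] at ht
      exact ⟨by omega, ht.2⟩)
  exact hmain

end Pool.Agent.Helper68.H
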